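import Pool.Agent.K3h83.IN.Stm6
import Pool.Agent.K3h69.IN.M4

/-!
# A normal cyclic Sylow `p`-subgroup: at most one irreducible representation occurs
-/

set_option autoImplicit false

open scoped BigOperators Classical

noncomputable section

namespace Pool.Agent.K3h20.CY

open Pool.Agent.K3h83.IN Pool.Agent.K3h3.MK Pool.Agent.K3h69.IN

variable {F G V : Type} [Field F] [Group G] [AddCommGroup V] [Module F V]

theorem fpStable (D : Subgroup G) (hD : D.Normal) (ρ : Representation F G V) (k : G) (v : V)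
    (hv : v ∈ FP ρ D) : ρ k v ∈ FP ρ D := by
  intro x hx
  have h1 : k⁻¹ * x * k ∈ D := by
    have := hD.conj_mem x hx k⁻¹
    rwa [inv_inv] at this
  have h2 : ρ (k⁻¹ * x * k) v = v := hv _ h1
  rw [← rho_mul]
  have e : x * k = k * (k⁻¹ * x * k) := by group
  rw [e, rho_mul, h2]

theorem tpStable [Finite G] (D : Subgroup G) (hD : D.Normal) (ρ : Representation F G V) (k : G)
    (v : V) (hv : v ∈ TP ρ D) : ρ k v ∈ TP ρ D := by
  letI := Fintype.ofFinite D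
  obtain ⟨w, rfl⟩ := (mem_TP D ρ v).mp hv
  refine (mem_TP D ρ _).mpr ⟨ρ k w, ?_⟩
  let e : D ≃ D :=
    { toFun := fun x => ⟨k * x * k⁻¹, hD.conj_mem x x.2 k⟩
      invFun := fun x => ⟨k⁻¹ * x * k, by
        have := hD.conj_mem x x.2 k⁻¹
        rwa [inv_inv] at this⟩
      left_inv := fun x => Subtype.ext (by
        change k⁻¹ * (k * x * k⁻¹) * k = x
        group)
      right_inv := fun x => Subtype.ext (by
        change k * (k⁻¹ * x * k) * k⁻¹ = x
        group) }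
  rw [map_sum, ← Equiv.sum_comp e (fun y : D => ρ (y : G) (ρ k w))]
  refine Finset.sum_congr rfl fun y _ => ?_
  change ρ (k * y * k⁻¹) (ρ k w) = ρ k (ρ y w)
  rw [← rho_mul, ← rho_mul]
  congr 2
  group

theorem fpIff (D : Subgroup G) (ρ : Representation F G V) (x₀ : G) (hx : x₀ ∈ D)
    (hg : ∀ z ∈ D, ∃ i : ℕ, x₀ ^ i = z) (v : V) :
    v ∈ FP ρ D ↔ (ρ x₀ - 1 : Module.End F V) v = 0 := by
  rw [LinearMap.sub_apply, Module.End.one_apply, sub_eq_zero]
  constructor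
  · intro h
    exact h x₀ hx
  · intro h z hz
    obtain ⟨i, rfl⟩ := hg z hz
    clear hz
    induction i with
    | zero =>
      rw [pow_zero, map_one]
      rfl
    | succ i ih =>
      rw [pow_succ, rho_mul, h]
      exact ih

theorem rangeStable (D : Subgroup G) (hD : D.Normal)
    (ρ : Representation F G V) (x₀ : G) (hx : x₀ ∈ D)
    (hg : ∀ z ∈ D, ∃ i : ℕ, x₀ ^ i = z) (k : G)
    (j : ℕ) (v : V) : ∃ w, ρ k (((ρ x₀ - 1 : Module.End F V) ^ j) v) =
      ((ρ x₀ - 1 : Module.End F V) ^ j) w := by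
  have h1 : k * x₀ * k⁻¹ ∈ D := hD.conj_mem x₀ hx k
  obtain ⟨a, ha⟩ := hg _ h1
  let T : Module.End F V := ρ x₀
  let u : Module.End F V := ∑ i ∈ Finset.range a, T ^ i
  have hu : (T - 1) * u = T ^ a - 1 := mul_geom_sum T a
  have huc : Commute u (T - 1) := by
    refine Commute.sub_right ?_ (Commute.one_right _)
    exact Commute.sum_left _ _ _ fun i _ => (Commute.refl T).pow_left i
  have hkX : ∀ w, ρ k ((T - 1) w) = (T - 1) (u (ρ k w)) := by
    intro w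
    have e1 : (T - 1) (u (ρ k w)) = (T ^ a - 1) (ρ k w) := by
      rw [← hu]
      rfl
    rw [e1, LinearMap.sub_apply, LinearMap.sub_apply, Module.End.one_apply, Module.End.one_apply,
      map_sub, ← rho_mul]
    have e2 : T ^ a = ρ (x₀ ^ a) := (map_pow ρ x₀ a).symm
    rw [e2, ha, ← rho_mul]
    congr 3
    group
  induction j with
  | zero => exact ⟨ρ k v, rfl⟩
  | succ j ih =>
    obtain ⟨w, hw⟩ := ih
    refine ⟨u w, ?_⟩
    change ρ k (((T - 1) ^ (j + 1)) v) = ((T - 1) ^ (j + 1)) (u w)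
    have hw' : ρ k (((T - 1) ^ j) v) = ((T - 1) ^ j) w := hw
    rw [pow_succ', Module.End.mul_apply, Module.End.mul_apply, hkX, hw', ← Module.End.mul_apply u,
      (huc.pow_right j).eq, Module.End.mul_apply]

theorem xPow {p : ℕ} [hp : Fact p.Prime] [CharP F p] (ρ : Representation F G V) (x₀ : G) (n : ℕ)
    (hx : x₀ ^ (p ^ n) = 1) : (ρ x₀ - 1 : Module.End F V) ^ (p ^ n) = 0 := by
  have h1 : (Polynomial.X - 1 : Polynomial F) ^ (p ^ n) = Polynomial.X ^ (p ^ n) - 1 := by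
    rw [sub_pow_char_pow, one_pow]
  have h2 := congrArg (Polynomial.aeval (ρ x₀ : Module.End F V)) h1
  rw [map_pow, map_sub, map_sub, map_pow, Polynomial.aeval_X, map_one] at h2
  rw [h2]
  have h3 : (ρ x₀ : Module.End F V) ^ (p ^ n) = ρ (x₀ ^ (p ^ n)) := (map_pow ρ x₀ _).symm
  rw [h3, hx, map_one, sub_self]

/-- endomorphisms are scalars on `V^D / (∑ x) V` -/
theorem scalS [Finite G] (D : Subgroup G) (σ : Representation F G V) (hs : StS σ)
    (η : V →ₗ[F] V) (hη : ∀ (b : G) (v : V), σ b (η v) = η (σ b v)) :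
    ∃ c : F, ∀ v ∈ FP σ D, η v - c • v ∈ TP σ D := by
  letI := Fintype.ofFinite G
  obtain ⟨c, β, hβ⟩ := hs η hη
  refine ⟨c, fun v hv => ?_⟩
  have h1 : η v - c • v = ∑ b : G, σ b (β (σ b⁻¹ v)) := by
    have := congrArg (fun f : V →ₗ[F] V => f v) hβ
    change η v = (c • (1 : V →ₗ[F] V) + ∑ b : G, σ b ∘ₗ β ∘ₗ σ b⁻¹) v at this
    rw [this, LinearMap.add_apply, LinearMap.smul_apply, Module.End.one_apply, add_sub_cancel_left,
      LinearMap.sum_apply]
    rfl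
  rw [h1]
  refine orb_sum D σ G (fun b => σ b (β (σ b⁻¹ v))) ?_ _ Finset.univ rfl ?_ ?_
  · intro y hy b
    change σ (y * b) (β (σ (y * b)⁻¹ v)) = σ y (σ b (β (σ b⁻¹ v)))
    rw [mul_inv_rev, rho_mul, rho_mul, hv y⁻¹ (D.inv_mem hy)]
  · intro y _ b _
    exact Finset.mem_univ _
  · intro b _ y _ hyb
    have h2 : y * b = b := hyb
    exact mul_eq_right.mp h2

theorem key5 [Finite G] [FiniteDimensional F V] {p : ℕ} [hp : Fact p.Prime]
    [CharP F p] (P : Subgroup G) (hn : P.Normal) (hidx : ¬ p ∣ P.index) (ρ : Representation F G V)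
    (hs : StS ρ) (x₀ : G) (hx : x₀ ∈ P) (hg : ∀ z ∈ P, ∃ i : ℕ, x₀ ^ i = z) (j : ℕ)
    (hj : ∀ v ∈ FP ρ P, (∃ w, ((ρ x₀ - 1 : Module.End F V) ^ (j + 1)) w = v) → v ∈ TP ρ P)
    (D : Submodule F V) (hD1 : ∀ v ∈ D, v ∈ FP ρ P) (hD2 : ∀ k : G, ∀ v ∈ D, ρ k v ∈ D)
    (hD3 : TP ρ P ≤ D) (hD4 : ∃ d ∈ D, d ∉ TP ρ P)
    (hD5 : ∀ d ∈ D, ∃ b ∈ TP ρ P, ∃ w, ((ρ x₀ - 1 : Module.End F V) ^ j) w = d - b) :
    ∀ v ∈ FP ρ P, v ∈ D := by
  obtain ⟨X, hX⟩ : ∃ X : Module.End F V, X = ρ x₀ - 1 := ⟨_, rfl⟩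
  rw [← hX] at hj hD5
  have hFP : ∀ v, v ∈ FP ρ P ↔ X v = 0 := fun v => by rw [hX]; exact fpIff P ρ x₀ hx hg v
  obtain ⟨π, hπ1, hπ2, hπ3⟩ := exists_proj (TP ρ P) (D ⊓ LinearMap.range (X ^ j))
    (TP ρ P ⊔ LinearMap.range (X ^ (j + 1))) le_sup_left (by
      intro v hvE hvY
      obtain ⟨b, hb, r, ⟨w, hw⟩, hbr⟩ := Submodule.mem_sup.mp hvY
      have h1 : r ∈ TP ρ P := by
        apply hj r _ ⟨w, hw⟩
        have : r = v - b := by rw [← hbr]; abel
        rw [this]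
        exact (FP ρ P).sub_mem (hD1 v hvE.1) (TP_le _ ρ b hb)
      rw [← hbr]
      exact (TP ρ P).add_mem hb h1)
  have hDE : ∀ d ∈ D, π d - d ∈ TP ρ P := by
    intro d hd
    apply hπ3
    obtain ⟨b, hb, w, hw⟩ := hD5 d hd
    have : d = b + (d - b) := by abel
    rw [this]
    exact Submodule.add_mem_sup hb ⟨D.sub_mem hd (hD3 hb), ⟨w, hw⟩⟩
  obtain ⟨Φ, hΦ1, hΦ2⟩ := lift_end X j π (fun v => (hFP _).mp (hD1 _ (hπ1 v).1))
    (fun v => (hπ1 v).2) (fun v => hπ2 _ (Submodule.mem_sup_right ⟨v, rfl⟩))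
  -- `Φ` commutes with `P`
  have hTX : ∀ v, ρ x₀ v = X v + v := by
    intro v
    rw [hX, LinearMap.sub_apply, Module.End.one_apply, sub_add_cancel]
  have hΦx : ∀ v, ρ x₀ (Φ v) = Φ (ρ x₀ v) := by
    intro v
    rw [hTX, hTX, map_add, hΦ1]
  have hH : ∀ z ∈ P, ∀ v, ρ z (Φ v) = Φ (ρ z v) := by
    intro z hz
    obtain ⟨i, rfl⟩ := hg z hz
    clear hz
    induction i with
    | zero =>
      intro v
      rw [pow_zero, map_one]
      rfl
    | succ i ih =>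
      intro v
      rw [pow_succ, rho_mul, rho_mul, hΦx, ih]
  letI := Fintype.ofFinite (G ⧸ P)
  obtain ⟨c, hc⟩ := scalS P ρ hs (rT ρ Φ P hH) (by
    intro h v
    exact (rT_comm ρ Φ P hH h v).symm)
  -- the index
  have hk : ((Nat.card (G ⧸ P) : ℕ) : F) ≠ 0 := by
    intro h0
    rw [CharP.cast_eq_zero_iff F p] at h0
    exact hidx h0
  have hN : ∀ k : G, ∀ v ∈ FP ρ P, ρ k v ∈ FP ρ P := fun k v hv => fpStable P hn ρ k v hv
  have hcj : ∀ (n : G) (v : V), v ∈ FP ρ P → cj ρ Φ n v = ρ n (π (ρ n⁻¹ v)) := by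
    intro n v hv
    rw [cj_apply, hΦ2 _ ((hFP _).mp (hN n⁻¹ v hv))]
  have hD : ∀ v ∈ FP ρ P, rT ρ Φ P hH v ∈ D := by
    intro v hv
    rw [rT_apply]
    refine D.sum_mem fun q _ => ?_
    obtain ⟨n, rfl⟩ := QuotientGroup.mk_surjective q
    rw [cq_mk, hcj n v hv]
    exact hD2 n _ (hπ1 _).1
  have hd : ∀ d ∈ D, rT ρ Φ P hH d - ((Nat.card (G ⧸ P) : ℕ) : F) • d ∈ TP ρ P := by
    intro d hd
    have e : rT ρ Φ P hH d - ((Nat.card (G ⧸ P) : ℕ) : F) • d =
        ∑ q : G ⧸ P, (cq ρ Φ P hH q d - d) := by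
      rw [rT_apply, Finset.sum_sub_distrib, Finset.sum_const, Finset.card_univ,
        ← Nat.card_eq_fintype_card, Nat.cast_smul_eq_nsmul]
    rw [e]
    refine (TP ρ P).sum_mem fun q _ => ?_
    obtain ⟨n, rfl⟩ := QuotientGroup.mk_surjective q
    rw [cq_mk, hcj n d (hD1 d hd)]
    have h1 : ρ n⁻¹ d ∈ D := hD2 _ d hd
    have h2 := hDE _ h1
    have h3 := tpStable P hn ρ n _ h2
    rw [map_sub] at h3
    have h4 : ρ n (ρ n⁻¹ d) = d := rho_self_inv ρ n d
    rw [h4] at h3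
    exact h3
  obtain ⟨d, hdD, hdT⟩ := hD4
  have hck : c = ((Nat.card (G ⧸ P) : ℕ) : F) := by
    by_contra hne
    apply hdT
    have h1 := hc d (hD1 d hdD)
    have h2 := hd d hdD
    have h3 := (TP ρ P).sub_mem h1 h2
    have e : rT ρ Φ P hH d - c • d - (rT ρ Φ P hH d - ((Nat.card (G ⧸ P) : ℕ) : F) • d) =
        (((Nat.card (G ⧸ P) : ℕ) : F) - c) • d := by
      rw [sub_smul]
      abel
    rw [e] at h3
    exact ((TP ρ P).smul_mem_iff (sub_ne_zero.mpr (Ne.symm hne))).mp h3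
  intro v hv
  have h1 := hD3 (hc v hv)
  have h2 := D.sub_mem (hD v hv) h1
  have e : rT ρ Φ P hH v - (rT ρ Φ P hH v - c • v) = c • v := by abel
  rw [e, hck] at h2
  exact (D.smul_mem_iff hk).mp h2

/-- an occurring representation fills the whole space -/
theorem occFull [Finite G] [FiniteDimensional F V] {p : ℕ} [hp : Fact p.Prime]
    [CharP F p] {W : Type} [AddCommGroup W] [Module F W] (P : Subgroup G) (hn : P.Normal)
    (hidx : ¬ p ∣ P.index) (ρ : Representation F G V)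
    (hs : StS ρ) (x₀ : G) (hx : x₀ ∈ P) (hg : ∀ z ∈ P, ∃ i : ℕ, x₀ ^ i = z) (n : ℕ)
    (hxp : x₀ ^ (p ^ n) = 1) (τ : Representation F G W)
    (f : W →ₗ[F] V) (hf1 : ∀ w, f w ∈ FP ρ P)
    (hf2 : ∀ (k : G) (w : W), ρ k (f w) - f (τ k w) ∈ TP ρ P) (hf3 : ∃ w, f w ∉ TP ρ P) :
    ∀ v ∈ FP ρ P, ∃ w, v - f w ∈ TP ρ P := by
  have hex : ∃ m : ℕ, ∀ v ∈ FP ρ P, (∃ w, ((ρ x₀ - 1 : Module.End F V) ^ m) w = v) → v ∈ TP ρ P := by
    refine ⟨p ^ n, fun v _ hv => ?_⟩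
    obtain ⟨w, rfl⟩ := hv
    rw [xPow ρ x₀ n hxp]
    exact (TP ρ P).zero_mem
  let m := Nat.find hex
  have hm := Nat.find_spec hex
  have hm0 : Nat.find hex ≠ 0 := by
    intro h0
    rw [h0] at hm
    obtain ⟨w, hw⟩ := hf3
    exact hw (hm _ (hf1 w) ⟨f w, rfl⟩)
  obtain ⟨j, hj⟩ := Nat.exists_eq_succ_of_ne_zero hm0
  rw [hj] at hm
  have hjn := Nat.find_min hex (m := j) (by omega)
  push Not at hjn
  obtain ⟨v₀, hv₀, ⟨w₀, hw₀⟩, hv₀T⟩ := hjn
  -- first step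
  have step1 := key5 P hn hidx ρ hs x₀ hx hg j hm
    (TP ρ P ⊔ (FP ρ P ⊓ LinearMap.range ((ρ x₀ - 1 : Module.End F V) ^ j)))
    (by
      intro v hv
      obtain ⟨b, hb, r, hr, rfl⟩ := Submodule.mem_sup.mp hv
      exact (FP ρ P).add_mem (TP_le _ ρ b hb) hr.1)
    (by
      intro k v hv
      obtain ⟨b, hb, r, ⟨hr1, w, hw⟩, rfl⟩ := Submodule.mem_sup.mp hv
      rw [map_add]
      refine Submodule.add_mem_sup (tpStable P hn ρ k b hb) ⟨fpStable P hn ρ k r hr1, ?_⟩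
      obtain ⟨w', hw'⟩ := rangeStable P hn ρ x₀ hx hg k j w
      refine ⟨w', ?_⟩
      rw [← hw', hw])
    le_sup_left
    ⟨v₀, Submodule.mem_sup_right ⟨hv₀, w₀, hw₀⟩, hv₀T⟩
    (by
      intro d hd
      obtain ⟨b, hb, r, ⟨hr1, w, hw⟩, rfl⟩ := Submodule.mem_sup.mp hd
      refine ⟨b, hb, w, ?_⟩
      rw [hw]
      abel)
  -- second step
  have step2 := key5 P hn hidx ρ hs x₀ hx hg j hm (TP ρ P ⊔ LinearMap.range f)
    (by
      intro v hv
      obtain ⟨b, hb, r, ⟨w, rfl⟩, rfl⟩ := Submodule.mem_sup.mp hv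
      exact (FP ρ P).add_mem (TP_le _ ρ b hb) (hf1 w))
    (by
      intro k v hv
      obtain ⟨b, hb, r, ⟨w, rfl⟩, rfl⟩ := Submodule.mem_sup.mp hv
      rw [map_add]
      have h1 := hf2 k w
      have e : ρ k b + ρ k (f w) = (ρ k b + (ρ k (f w) - f (τ k w))) + f (τ k w) := by
        abel
      rw [e]
      exact Submodule.add_mem_sup ((TP ρ P).add_mem (tpStable P hn ρ k b hb) h1) ⟨_, rfl⟩)
    le_sup_left
    (by
      obtain ⟨w, hw⟩ := hf3
      exact ⟨f w, Submodule.mem_sup_right ⟨w, rfl⟩, hw⟩)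
    (by
      intro d hd
      have h1 : d ∈ FP ρ P := by
        obtain ⟨b, hb, r, ⟨w, rfl⟩, rfl⟩ := Submodule.mem_sup.mp hd
        exact (FP ρ P).add_mem (TP_le _ ρ b hb) (hf1 w)
      obtain ⟨b, hb, r, ⟨hr1, w, hw⟩, rfl⟩ := Submodule.mem_sup.mp (step1 d h1)
      refine ⟨b, hb, w, ?_⟩
      rw [hw]
      abel)
  intro v hv
  obtain ⟨b, hb, r, ⟨w, rfl⟩, rfl⟩ := Submodule.mem_sup.mp (step2 v hv)
  refine ⟨w, ?_⟩
  rw [add_sub_cancel_right]
  exact hb

theorem occInj [Finite G] {W : Type} [AddCommGroup W] [Module F W] (P : Subgroup G)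
    (hn : P.Normal) (ρ : Representation F G V) (τ : Representation F G W) (hτ : τ.IsIrreducible)
    (f : W →ₗ[F] V)
    (hf2 : ∀ (k : G) (w : W), ρ k (f w) - f (τ k w) ∈ TP ρ P) (hf3 : ∃ w, f w ∉ TP ρ P) :
    ∀ w, f w ∈ TP ρ P → w = 0 := by
  haveI := hτ
  let U : Subrepresentation τ :=
    { toSubmodule := (TP ρ P).comap f
      apply_mem_toSubmodule := by
        intro k w hw
        have h1 := hf2 k w
        have h2 := tpStable P hn ρ k _ hw
        have h3 := (TP ρ P).sub_mem h2 h1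
        rw [sub_sub_cancel] at h3
        exact h3 }
  have hU : U = ⊥ ∨ U = ⊤ := eq_bot_or_eq_top U
  intro w hw
  rcases hU with h | h
  · have h1 : w ∈ (⊥ : Subrepresentation τ) := by
      rw [← h]
      exact hw
    exact h1
  · exfalso
    obtain ⟨w', hw'⟩ := hf3
    apply hw'
    have h1 : w' ∈ (⊤ : Subrepresentation τ) := trivial
    rw [← h] at h1
    exact h1

/-- a normal cyclic `p`-subgroup acts trivially on an irreducible representation -/
theorem trivAct {p : ℕ} [hp : Fact p.Prime] [CharP F p]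
    {W : Type} [AddCommGroup W] [Module F W] (D : Subgroup G) (hn : D.Normal)
    (τ : Representation F G W) (hτ : τ.IsIrreducible)
    (x₀ : G) (hx : x₀ ∈ D) (hg : ∀ z ∈ D, ∃ i : ℕ, x₀ ^ i = z) (n : ℕ)
    (hxp : x₀ ^ (p ^ n) = 1) : ∀ w, w ∈ FP τ D := by
  haveI := hτ
  let U : Subrepresentation τ :=
    { toSubmodule := FP τ D
      apply_mem_toSubmodule := by
        intro k w hw
        exact fpStable D hn τ k w hw }
  have hU : U = ⊥ ∨ U = ⊤ := eq_bot_or_eq_top U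
  intro w
  rcases hU with h | h
  · exfalso
    have hinj : ∀ w, (τ x₀ - 1 : Module.End F W) w = 0 → w = 0 := by
      intro w hw
      have h1 : w ∈ U := (fpIff D τ x₀ hx hg w).mpr hw
      rw [h] at h1
      exact h1
    have hpow : ∀ (k : ℕ) (w : W), ((τ x₀ - 1 : Module.End F W) ^ k) w = 0 → w = 0 := by
      intro k
      induction k with
      | zero =>
        intro w hw
        rw [pow_zero] at hw
        exact hw
      | succ k ih =>
        intro w hw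
        rw [pow_succ, Module.End.mul_apply] at hw
        exact hinj w (ih _ hw)
    have hz : ∀ w : W, w = 0 := by
      intro w
      apply hpow (p ^ n) w
      rw [xPow τ x₀ n hxp]
      rfl
    have hne : (⊥ : Subrepresentation τ) ≠ ⊤ := bot_ne_top
    apply hne
    apply le_antisymm bot_le
    intro w _
    rw [hz w]
    exact Submodule.zero_mem _
  · have h1 : w ∈ (⊤ : Subrepresentation τ) := trivial
    rw [← h] at h1
    exact h1

/-- sums over cosets -/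
theorem cosetSum [Fintype G] {M : Type} [AddCommMonoid M] (D : Subgroup G) [Fintype D]
    [Fintype (G ⧸ D)] (Fn : G → M) :
    ∑ b : G, Fn b = ∑ q : G ⧸ D, ∑ y : D, Fn (q.out * y) := by
  rw [← Fintype.sum_prod_type']
  symm
  refine Fintype.sum_bijective (fun z : (G ⧸ D) × D => z.1.out * z.2) ?_ _ _ fun _ => rfl
  constructor
  · rintro ⟨q, y⟩ ⟨q', y'⟩ h
    have h' : q.out * y = q'.out * y' := h
    have h1 : q = q' := by
      have e1 : ((q.out * y : G) : G ⧸ D) = q := by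
        rw [QuotientGroup.mk_mul_of_mem _ y.2]
        exact QuotientGroup.out_eq' q
      have e2 : ((q'.out * y' : G) : G ⧸ D) = q' := by
        rw [QuotientGroup.mk_mul_of_mem _ y'.2]
        exact QuotientGroup.out_eq' q'
      rw [← e1, ← e2, h']
    subst h1
    have h2 : (y : G) = y' := mul_left_cancel h'
    rw [Subtype.ext h2]
  · intro g
    refine ⟨((g : G ⧸ D), ⟨(g : G ⧸ D).out⁻¹ * g, ?_⟩), ?_⟩
    · rw [← QuotientGroup.eq]
      exact QuotientGroup.out_eq' _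
    · change (g : G ⧸ D).out * ((g : G ⧸ D).out⁻¹ * g) = g
      rw [mul_inv_cancel_left]

/-- a homomorphism with values in `(∑ x) V` is a trace -/
theorem isTrace [Finite G] {p : ℕ} [hp : Fact p.Prime] [CharP F p]
    {W : Type} [AddCommGroup W] [Module F W] (D : Subgroup G)
    (hidx : ¬ p ∣ D.index) (σ : Representation F G V) (τ : Representation F G W)
    (ht : ∀ w, w ∈ FP τ D) (f : W →ₗ[F] V) (hf : ∀ (b : G) (w : W), σ b (f w) = f (τ b w))
    (hT : ∀ w, f w ∈ TP σ D) :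
    letI := Fintype.ofFinite G
    ∃ θ : W →ₗ[F] V, f = ∑ b : G, σ b ∘ₗ θ ∘ₗ τ b⁻¹ := by
  letI := Fintype.ofFinite G
  letI := Fintype.ofFinite D
  letI := Fintype.ofFinite (G ⧸ D)
  let N : V →ₗ[F] V := ∑ x : D, σ (x : G)
  have hN : ∀ v, N v = ∑ x : D, σ (x : G) v := fun v => by
    change (∑ x : D, σ (x : G)) v = _
    rw [LinearMap.sum_apply]
  have hR : ∀ w, f w ∈ LinearMap.range N := by
    intro w
    obtain ⟨v, hv⟩ := (mem_TP D σ (f w)).mp (hT w)
    exact ⟨v, by rw [hN]; exact hv⟩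
  obtain ⟨r, hr⟩ := N.rangeRestrict.exists_rightInverse_of_surjective
    (LinearMap.range_rangeRestrict _)
  let t : W →ₗ[F] V := r ∘ₗ (f.codRestrict (LinearMap.range N) fun w => hR w)
  have ht1 : ∀ w, N (t w) = f w := by
    intro w
    have := congrArg (fun g : _ →ₗ[F] _ => (g ⟨f w, hR w⟩ : LinearMap.range N).1) hr
    exact this
  have hk : ((Nat.card (G ⧸ D) : ℕ) : F) ≠ 0 := by
    intro h0
    rw [CharP.cast_eq_zero_iff F p] at h0
    exact hidx h0
  refine ⟨((Nat.card (G ⧸ D) : ℕ) : F)⁻¹ • t, ?_⟩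
  ext w
  rw [LinearMap.sum_apply, cosetSum D]
  have h1 : ∀ q : G ⧸ D, ∑ y : D, (σ (q.out * y) ∘ₗ (((Nat.card (G ⧸ D) : ℕ) : F)⁻¹ • t) ∘ₗ
      τ (q.out * y)⁻¹) w = ((Nat.card (G ⧸ D) : ℕ) : F)⁻¹ • f w := by
    intro q
    have h2 : ∀ y : D, (σ (q.out * y) ∘ₗ (((Nat.card (G ⧸ D) : ℕ) : F)⁻¹ • t) ∘ₗ
        τ (q.out * y)⁻¹) w = ((Nat.card (G ⧸ D) : ℕ) : F)⁻¹ •
          σ q.out (σ (y : G) (t (τ q.out⁻¹ w))) := by
      intro y
      change σ (q.out * y) ((((Nat.card (G ⧸ D) : ℕ) : F)⁻¹ • t) (τ (q.out * y)⁻¹ w)) = _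
      rw [LinearMap.smul_apply, map_smul, mul_inv_rev, rho_mul, rho_mul,
        ht _ (y : G)⁻¹ (D.inv_mem y.2)]
    rw [Finset.sum_congr rfl fun y _ => h2 y, ← Finset.smul_sum, ← map_sum, ← hN, ht1, hf,
      rho_self_inv]
  rw [Finset.sum_congr rfl fun q _ => h1 q, Finset.sum_const, Finset.card_univ,
    ← Nat.card_eq_fintype_card, ← Nat.cast_smul_eq_nsmul F, smul_smul, mul_inv_cancel₀ hk, one_smul]

theorem t_E2 : E2 := by
  intro p _ F _ _ _ B _ _ D hn hc hpg hidx V W W' _ _ _ _ _ _ _ _ _ σ τ τ' hs hτ hτ' ho ho' hne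
  obtain ⟨f, hf1, hf2⟩ := ho
  obtain ⟨f', hf1', hf2'⟩ := ho'
  obtain ⟨⟨x₀, hx⟩, hx₀⟩ := hc.exists_generator
  obtain ⟨n, hcn⟩ := (IsPGroup.iff_card (p := p)).mp hpg
  have hxp : x₀ ^ (p ^ n) = 1 := by
    have h1 : (⟨x₀, hx⟩ : D) ^ Nat.card D = 1 := pow_card_eq_one'
    rw [hcn] at h1
    exact congrArg Subtype.val h1
  have hg : ∀ z ∈ D, ∃ i : ℕ, x₀ ^ i = z := by
    intro z hz
    have h1 : (⟨z, hz⟩ : D) ∈ Subgroup.zpowers (⟨x₀, hx⟩ : D) := hx₀ _
    have h2 : (⟨z, hz⟩ : D) ∈ Submonoid.powers (⟨x₀, hx⟩ : D) := by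
      rwa [mem_powers_iff_mem_zpowers]
    obtain ⟨i, hi⟩ := h2
    exact ⟨i, congrArg Subtype.val hi⟩
  have ht := trivAct (p := p) D hn τ hτ x₀ hx hg n hxp
  have ht' := trivAct (p := p) D hn τ' hτ' x₀ hx hg n hxp
  have hf1a : ∀ (b : B) (w : W), σ b (f w) = f (τ b w) := hf1
  have hf1b : ∀ (b : B) (w : W'), σ b (f' w) = f' (τ' b w) := hf1'
  have q1 : ∀ w, f w ∈ FP σ D := by
    intro w x hx
    rw [hf1a, ht w x hx]
  have q1' : ∀ w, f' w ∈ FP σ D := by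
    intro w x hx
    rw [hf1b, ht' w x hx]
  have q2 : ∀ (k : B) (w : W), σ k (f w) - f (τ k w) ∈ TP σ D := by
    intro k w
    rw [hf1a, sub_self]
    exact (TP σ D).zero_mem
  have q2' : ∀ (k : B) (w : W'), σ k (f' w) - f' (τ' k w) ∈ TP σ D := by
    intro k w
    rw [hf1b, sub_self]
    exact (TP σ D).zero_mem
  have q3 : ∃ w, f w ∉ TP σ D := by
    by_contra hcon
    push Not at hcon
    exact hf2 (isTrace (p := p) D hidx σ τ ht f hf1a hcon)
  have q3' : ∃ w, f' w ∉ TP σ D := by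
    by_contra hcon
    push Not at hcon
    exact hf2' (isTrace (p := p) D hidx σ τ' ht' f' hf1b hcon)
  apply hne
  have a1 := occFull D hn hidx σ hs x₀ hx hg n hxp τ f q1 q2 q3
  have a2 := occFull D hn hidx σ hs x₀ hx hg n hxp τ' f' q1' q2' q3'
  have b1 := occInj D hn σ τ hτ f q2 q3
  have b2 := occInj D hn σ τ' hτ' f' q2' q3'
  let g : W →ₗ[F] (V ⧸ TP σ D) := (TP σ D).mkQ ∘ₗ f
  let g' : W' →ₗ[F] (V ⧸ TP σ D) := (TP σ D).mkQ ∘ₗ f'
  have hg : Function.Injective g := by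
    rw [← LinearMap.ker_eq_bot, LinearMap.ker_eq_bot']
    intro w hw
    exact b1 w ((Submodule.Quotient.mk_eq_zero _).mp hw)
  have hg' : Function.Injective g' := by
    rw [← LinearMap.ker_eq_bot, LinearMap.ker_eq_bot']
    intro w hw
    exact b2 w ((Submodule.Quotient.mk_eq_zero _).mp hw)
  have hr : LinearMap.range g = LinearMap.range g' := by
    apply le_antisymm
    · rintro _ ⟨w, rfl⟩
      obtain ⟨w', hw'⟩ := a2 (f w) (q1 w)
      refine ⟨w', ?_⟩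
      exact ((Submodule.Quotient.eq _).mpr hw').symm
    · rintro _ ⟨w, rfl⟩
      obtain ⟨w', hw'⟩ := a1 (f' w) (q1' w)
      refine ⟨w', ?_⟩
      exact ((Submodule.Quotient.eq _).mpr hw').symm
  let e : W ≃ₗ[F] W' :=
    (LinearEquiv.ofInjective g hg).trans
      ((LinearEquiv.ofEq _ _ hr).trans (LinearEquiv.ofInjective g' hg').symm)
  have he : ∀ w, g' (e w) = g w := by
    intro w
    have h1 : LinearEquiv.ofInjective g' hg' (e w) = LinearEquiv.ofEq _ _ hr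
        (LinearEquiv.ofInjective g hg w) := by
      change LinearEquiv.ofInjective g' hg' ((LinearEquiv.ofInjective g' hg').symm _) = _
      rw [LinearEquiv.apply_symm_apply]
      rfl
    exact congrArg Subtype.val h1
  refine ⟨e, fun k w => hg' ?_⟩
  rw [he]
  have h1 : f w - f' (e w) ∈ TP σ D := (Submodule.Quotient.eq _).mp (he w).symm
  have h2 := tpStable D hn σ k _ h1
  rw [map_sub] at h2
  have h3 := q2 k w
  have h4 := q2' k (e w)
  refine (Submodule.Quotient.eq _).mpr ?_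
  have e1 : f (τ k w) - f' (τ' k (e w)) = (σ k (f w) - σ k (f' (e w))) -
      (σ k (f w) - f (τ k w)) + (σ k (f' (e w)) - f' (τ' k (e w))) := by abel
  change f (τ k w) - f' (τ' k (e w)) ∈ TP σ D
  rw [e1]
  exact (TP σ D).add_mem ((TP σ D).sub_mem h2 h3) h4

end Pool.Agent.K3h20.CY
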